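import Pool.Agent.N781.A.Stm
import Pool.Agent.N368.A3.Fou

/-!
# Project A, job U2: two windows, the inverse theorem
-/

set_option autoImplicit false

namespace Pool.Agent.N803.A.U2

open Finset Pool.Agent.N675 Pool.Agent.N781.A Pool.Agent.N368.A3

open scoped ComplexConjugate

/-- the truncated correlations -/
noncomputable def Gam (K : ℕ) (u : ℤ → ℂ) (r : ℤ) : ℂ :=
  ∑ k ∈ Icc (1 : ℤ) K, ∑ l ∈ Icc (1 : ℤ) K, if l - k = r then u k * conj (u l) else 0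

/-- the spectral weights -/
noncomputable def Jw (K : ℕ) (u : ℤ → ℂ) (t : ℝ) : ℝ :=
  ‖∑ k ∈ Icc (1 : ℤ) K, u k * eR (-(k * t))‖ ^ 2

/-- the correlations -/
noncomputable def Gc (K : ℕ) (u : ℤ → ℂ) (h h' : ℤ) : ℂ :=
  ∑ k ∈ Icc (1 : ℤ) K, u (k + h) * conj (u (k + h'))

lemma sq_eq (z : ℂ) : ((‖z‖ ^ 2 : ℝ) : ℂ) = z * conj z := by
  rw [Complex.mul_conj, Complex.normSq_eq_norm_sq]

lemma card_I (K : ℕ) : (Icc (1 : ℤ) K).card = K := by simp

lemma F2 (K : ℕ) (u : ℤ → ℂ) (r : ℤ) (hr : |r| ≤ K) :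
    ∑ j ∈ range (2 * K + 1), (Jw K u ((j : ℝ) / (2 * K + 1 : ℕ)) : ℂ) *
      eR (-(r * ((j : ℝ) / (2 * K + 1 : ℕ)))) = (2 * K + 1 : ℕ) * Gam K u r := by
  have h1 : ∀ j ∈ range (2 * K + 1), (Jw K u ((j : ℝ) / (2 * K + 1 : ℕ)) : ℂ) *
      eR (-(r * ((j : ℝ) / (2 * K + 1 : ℕ)))) =
      ∑ k ∈ Icc (1 : ℤ) K, ∑ l ∈ Icc (1 : ℤ) K, u k * conj (u l) *
        eR (((l - k - r : ℤ) : ℝ) * ((j : ℝ) / (2 * K + 1 : ℕ))) := by
    intro j _
    rw [Jw, sq_eq, map_sum, sum_mul_sum, sum_mul]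
    refine sum_congr rfl fun k _ => ?_
    rw [sum_mul]
    refine sum_congr rfl fun l _ => ?_
    rw [map_mul, ← eR_neg, neg_neg]
    have : eR (((l - k - r : ℤ) : ℝ) * ((j : ℝ) / (2 * K + 1 : ℕ))) =
        eR (-(k * ((j : ℝ) / (2 * K + 1 : ℕ)))) * eR (l * ((j : ℝ) / (2 * K + 1 : ℕ))) *
          eR (-(r * ((j : ℝ) / (2 * K + 1 : ℕ)))) := by
      rw [← eR_add, ← eR_add]
      congr 1
      push_cast
      ring
    rw [this]
    ring
  rw [sum_congr rfl h1, sum_comm, Gam, mul_sum]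
  refine sum_congr rfl fun k hk => ?_
  rw [sum_comm, mul_sum]
  refine sum_congr rfl fun l hl => ?_
  rw [← mul_sum, orth _ (by omega)]
  rw [mem_Icc] at hk hl
  have hr' := abs_le.1 hr
  by_cases h : l - k = r
  · have h0 : l - k - r = 0 := by omega
    rw [h0, if_pos (dvd_zero _), if_pos h]
    ring
  · rw [if_neg h, if_neg]
    · ring
    · intro hd
      apply h
      have h2 : |l - k - r| < ((2 * K + 1 : ℕ) : ℤ) := by
        rw [abs_lt]
        push_cast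
        constructor <;> omega
      have h3 := Int.eq_zero_of_abs_lt_dvd hd h2
      omega

lemma norm_sum_le_card {S : Finset ℤ} {f : ℤ → ℂ} (hf : ∀ m, ‖f m‖ ≤ 1) :
    ‖∑ m ∈ S, f m‖ ≤ S.card := by
  refine (norm_sum_le _ _).trans ?_
  calc ∑ m ∈ S, ‖f m‖ ≤ ∑ _m ∈ S, (1 : ℝ) := sum_le_sum fun m _ => hf m
    _ = S.card := by simp

/-- comparison of the correlations -/
lemma F3 (K K' : ℕ) (u : ℤ → ℂ) (hu : ∀ m, ‖u m‖ ≤ 1) (h h' : ℤ) (hh : h ∈ Icc (1 : ℤ) K')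
    (hh' : h' ∈ Icc (1 : ℤ) K') : ‖Gc K u h h' - Gam K u (h' - h)‖ ≤ 2 * K' := by
  rw [mem_Icc] at hh hh'
  set f : ℤ → ℂ := fun m => u m * conj (u (m + (h' - h))) with hf
  have hf1 : ∀ m, ‖f m‖ ≤ 1 := fun m => by
    rw [hf]
    simp only [norm_mul, RCLike.norm_conj]
    exact mul_le_one₀ (hu _) (norm_nonneg _) (hu _)
  set S : Finset ℤ := Icc (1 + h) (K + h) with hS
  set T : Finset ℤ := (Icc (1 : ℤ) K).filter fun m => m + (h' - h) ∈ Icc (1 : ℤ) K with hT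
  have e1 : Gc K u h h' = ∑ m ∈ S, f m := by
    unfold Gc
    rw [hS]
    refine sum_nbij' (fun k => k + h) (fun m => m - h) ?_ ?_ ?_ ?_ ?_
    · intro k hk; rw [mem_Icc] at hk ⊢; constructor <;> omega
    · intro k hk; rw [mem_Icc] at hk ⊢; constructor <;> omega
    · intro k _; ring
    · intro k _; ring
    · intro k _
      show _ = u (k + h) * conj (u (k + h + (h' - h)))
      congr 3
      ring
  have e2 : Gam K u (h' - h) = ∑ m ∈ T, f m := by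
    unfold Gam
    rw [hT, sum_filter]
    refine sum_congr rfl fun k _ => ?_
    by_cases hk : k + (h' - h) ∈ Icc (1 : ℤ) K
    · rw [if_pos hk, sum_eq_single_of_mem _ hk]
      · rw [if_pos (by ring)]
      · intro l _ hl
        rw [if_neg]
        intro h0
        apply hl
        omega
    · rw [if_neg hk]
      refine sum_eq_zero fun l hl => ?_
      rw [if_neg]
      intro h0
      apply hk
      have : k + (h' - h) = l := by omega
      rw [this]; exact hl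
  rw [e1, e2]
  have e3 : ∑ m ∈ S, f m = ∑ m ∈ S ∩ T, f m + ∑ m ∈ S \ T, f m := (sum_inter_add_sum_sdiff S T f).symm
  have e4 : ∑ m ∈ T, f m = ∑ m ∈ S ∩ T, f m + ∑ m ∈ T \ S, f m := by
    rw [inter_comm]; exact (sum_inter_add_sum_sdiff T S f).symm
  rw [e3, e4]
  have e5 : ∑ m ∈ S ∩ T, f m + ∑ m ∈ S \ T, f m - (∑ m ∈ S ∩ T, f m + ∑ m ∈ T \ S, f m) =
      ∑ m ∈ S \ T, f m - ∑ m ∈ T \ S, f m := by ring
  rw [e5]
  have c1 : (S \ T).card ≤ K' := by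
    have : S \ T ⊆ Icc (K + h - K' + 1 : ℤ) (K + h) := by
      intro m hm
      rw [mem_sdiff, hT, mem_filter, hS, mem_Icc, mem_Icc, mem_Icc] at hm
      rw [mem_Icc]
      constructor
      · by_contra hc
        push Not at hc
        apply hm.2
        refine ⟨⟨?_, ?_⟩, ?_, ?_⟩ <;> omega
      · exact hm.1.2
    refine (card_le_card this).trans ?_
    rw [Int.card_Icc]
    omega
  have c2 : (T \ S).card ≤ K' := by
    have : T \ S ⊆ Icc (1 : ℤ) K' := by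
      intro m hm
      rw [mem_sdiff, hT, mem_filter, hS, mem_Icc, mem_Icc, mem_Icc] at hm
      rw [mem_Icc]
      constructor
      · exact hm.1.1.1
      · by_contra hc
        push Not at hc
        apply hm.2
        constructor <;> omega
    refine (card_le_card this).trans ?_
    rw [card_I]
  calc ‖∑ m ∈ S \ T, f m - ∑ m ∈ T \ S, f m‖ ≤ ‖∑ m ∈ S \ T, f m‖ + ‖∑ m ∈ T \ S, f m‖ :=
        norm_sub_le _ _
    _ ≤ (S \ T).card + (T \ S).card := add_le_add (norm_sum_le_card hf1) (norm_sum_le_card hf1)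
    _ ≤ K' + K' := by
        have d1 : ((S \ T).card : ℝ) ≤ K' := by exact_mod_cast c1
        have d2 : ((T \ S).card : ℝ) ≤ K' := by exact_mod_cast c2
        linarith
    _ = 2 * K' := by ring

/-- the mean square of the twisted short sums -/
noncomputable def Wt (K K' : ℕ) (u : ℤ → ℂ) (θ : ℝ) : ℝ :=
  ∑ k ∈ Icc (1 : ℤ) K, ‖∑ h ∈ Icc (1 : ℤ) K', u (k + h) * eR (h * θ)‖ ^ 2

lemma Wt_eq (K K' : ℕ) (u : ℤ → ℂ) (t : ℝ) :
    ((Wt K K' u (-t) : ℝ) : ℂ) = ∑ h ∈ Icc (1 : ℤ) K', ∑ h' ∈ Icc (1 : ℤ) K',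
      Gc K u h h' * eR (((h' - h : ℤ) : ℝ) * t) := by
  unfold Wt Gc
  push_cast
  have : ∀ k ∈ Icc (1 : ℤ) K, ((‖∑ h ∈ Icc (1 : ℤ) K', u (k + h) * eR (h * -t)‖ : ℂ)) ^ 2 =
      ∑ h ∈ Icc (1 : ℤ) K', ∑ h' ∈ Icc (1 : ℤ) K', u (k + h) * conj (u (k + h')) *
        eR (((h' - h : ℤ) : ℝ) * t) := by
    intro k _
    have e := sq_eq (∑ h ∈ Icc (1 : ℤ) K', u (k + h) * eR (h * -t))
    push_cast at e
    rw [e, map_sum, sum_mul_sum]
    refine sum_congr rfl fun h _ => sum_congr rfl fun h' _ => ?_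
    rw [map_mul, ← eR_neg]
    have : eR (((h' - h : ℤ) : ℝ) * t) = eR (h * -t) * eR (-(h' * -t)) := by
      rw [← eR_add]
      congr 1
      push_cast
      ring
    rw [this]
    ring
  rw [sum_congr rfl this, sum_comm]
  refine sum_congr rfl fun h _ => ?_
  rw [sum_comm]
  refine sum_congr rfl fun h' _ => ?_
  rw [sum_mul]
  push_cast
  rfl

lemma F4 (K K' : ℕ) (hK : K' ≤ K) (u : ℤ → ℂ) :
    ∑ h ∈ Icc (1 : ℤ) K', ∑ h' ∈ Icc (1 : ℤ) K', Gc K u h h' *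
      conj (((2 * K + 1 : ℕ) : ℂ) * Gam K u (h' - h)) =
    ((∑ j ∈ range (2 * K + 1), Jw K u ((j : ℝ) / (2 * K + 1 : ℕ)) *
      Wt K K' u (-((j : ℝ) / (2 * K + 1 : ℕ))) : ℝ) : ℂ) := by
  have h1 : ∀ h ∈ Icc (1 : ℤ) K', ∀ h' ∈ Icc (1 : ℤ) K', Gc K u h h' *
      conj (((2 * K + 1 : ℕ) : ℂ) * Gam K u (h' - h)) =
      ∑ j ∈ range (2 * K + 1), (Jw K u ((j : ℝ) / (2 * K + 1 : ℕ)) : ℂ) *
        (Gc K u h h' * eR (((h' - h : ℤ) : ℝ) * ((j : ℝ) / (2 * K + 1 : ℕ)))) := by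
    intro h hh h' hh'
    rw [mem_Icc] at hh hh'
    rw [← F2 K u (h' - h) (by rw [abs_le]; constructor <;> omega), map_sum, mul_sum]
    refine sum_congr rfl fun j _ => ?_
    rw [map_mul, Complex.conj_ofReal, ← eR_neg, neg_neg]
    ring
  rw [sum_congr rfl fun h hh => sum_congr rfl fun h' hh' => h1 h hh h' hh', Complex.ofReal_sum]
  simp only [Complex.ofReal_mul, Wt_eq]
  have h2 : ∀ h ∈ Icc (1 : ℤ) K', (∑ h' ∈ Icc (1 : ℤ) K', ∑ j ∈ range (2 * K + 1),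
      (Jw K u ((j : ℝ) / (2 * K + 1 : ℕ)) : ℂ) *
        (Gc K u h h' * eR (((h' - h : ℤ) : ℝ) * ((j : ℝ) / (2 * K + 1 : ℕ))))) =
      ∑ j ∈ range (2 * K + 1), ∑ h' ∈ Icc (1 : ℤ) K',
      (Jw K u ((j : ℝ) / (2 * K + 1 : ℕ)) : ℂ) *
        (Gc K u h h' * eR (((h' - h : ℤ) : ℝ) * ((j : ℝ) / (2 * K + 1 : ℕ)))) :=
    fun h _ => sum_comm
  rw [sum_congr rfl h2, sum_comm]
  refine sum_congr rfl fun j _ => ?_
  rw [mul_sum]
  refine sum_congr rfl fun h _ => ?_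
  rw [mul_sum]

lemma sum_J (K : ℕ) (u : ℤ → ℂ) (hu : ∀ m, ‖u m‖ ≤ 1) :
    ∑ j ∈ range (2 * K + 1), Jw K u ((j : ℝ) / (2 * K + 1 : ℕ)) ≤ ((2 * K + 1 : ℕ) : ℝ) * K := by
  have h := F2 K u 0 (by simp)
  have h1 : ((∑ j ∈ range (2 * K + 1), Jw K u ((j : ℝ) / (2 * K + 1 : ℕ)) : ℝ) : ℂ) =
      ((((2 * K + 1 : ℕ) : ℝ) * ∑ k ∈ Icc (1 : ℤ) K, ‖u k‖ ^ 2 : ℝ) : ℂ) := by
    have e1 : Gam K u 0 = ((∑ k ∈ Icc (1 : ℤ) K, ‖u k‖ ^ 2 : ℝ) : ℂ) := by
      unfold Gam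
      rw [Complex.ofReal_sum]
      refine sum_congr rfl fun k hk => ?_
      rw [sum_eq_single_of_mem k hk, if_pos (sub_self k), sq_eq]
      intro l _ hl
      rw [if_neg]
      intro h0
      apply hl
      omega
    rw [Complex.ofReal_mul, ← e1, Complex.ofReal_sum]
    rw [Complex.ofReal_natCast, ← h]
    refine sum_congr rfl fun j _ => ?_
    simp [eR_zero]
  have h2 := Complex.ofReal_injective h1
  rw [h2]
  refine mul_le_mul_of_nonneg_left ?_ (Nat.cast_nonneg _)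
  calc ∑ k ∈ Icc (1 : ℤ) K, ‖u k‖ ^ 2 ≤ ∑ _k ∈ Icc (1 : ℤ) K, (1 : ℝ) :=
        sum_le_sum fun k _ => pow_le_one₀ (norm_nonneg _) (hu k)
    _ = K := by simp

/-- the core inequality -/
lemma core (K K' : ℕ) (hK : K' ≤ K) (u : ℤ → ℂ) (hu : ∀ m, ‖u m‖ ≤ 1) (w : ℝ)
    (hw : ∀ θ : ℝ, Wt K K' u θ ≤ w) :
    ∑ h ∈ Icc (1 : ℤ) K', ∑ h' ∈ Icc (1 : ℤ) K', ‖Gc K u h h'‖ ^ 2 ≤
      K * w + 2 * K * (K' : ℝ) ^ 3 := by
  set M : ℕ := 2 * K + 1 with hM
  have hM0 : (0 : ℝ) < M := by rw [hM]; positivity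
  have hG : ∀ h h', ‖Gc K u h h'‖ ≤ K := by
    intro h h'
    unfold Gc
    refine (norm_sum_le _ _).trans ?_
    calc ∑ k ∈ Icc (1 : ℤ) K, ‖u (k + h) * conj (u (k + h'))‖ ≤ ∑ _k ∈ Icc (1 : ℤ) K, (1 : ℝ) := by
          refine sum_le_sum fun k _ => ?_
          rw [norm_mul, RCLike.norm_conj]
          exact mul_le_one₀ (hu _) (norm_nonneg _) (hu _)
      _ = K := by simp
  -- splitting
  have e1 : ∑ h ∈ Icc (1 : ℤ) K', ∑ h' ∈ Icc (1 : ℤ) K', ‖Gc K u h h'‖ ^ 2 =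
      ((∑ h ∈ Icc (1 : ℤ) K', ∑ h' ∈ Icc (1 : ℤ) K', Gc K u h h' * conj (Gam K u (h' - h))) +
      ∑ h ∈ Icc (1 : ℤ) K', ∑ h' ∈ Icc (1 : ℤ) K', Gc K u h h' *
        conj (Gc K u h h' - Gam K u (h' - h))).re := by
    have : ((∑ h ∈ Icc (1 : ℤ) K', ∑ h' ∈ Icc (1 : ℤ) K', ‖Gc K u h h'‖ ^ 2 : ℝ) : ℂ) =
        ((∑ h ∈ Icc (1 : ℤ) K', ∑ h' ∈ Icc (1 : ℤ) K', Gc K u h h' * conj (Gam K u (h' - h))) +
      ∑ h ∈ Icc (1 : ℤ) K', ∑ h' ∈ Icc (1 : ℤ) K', Gc K u h h' *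
        conj (Gc K u h h' - Gam K u (h' - h))) := by
      rw [← sum_add_distrib, Complex.ofReal_sum]
      refine sum_congr rfl fun h _ => ?_
      rw [← sum_add_distrib, Complex.ofReal_sum]
      refine sum_congr rfl fun h' _ => ?_
      rw [sq_eq, map_sub]
      ring
    rw [← this, Complex.ofReal_re]
  rw [e1, Complex.add_re]
  have b2 : (∑ h ∈ Icc (1 : ℤ) K', ∑ h' ∈ Icc (1 : ℤ) K', Gc K u h h' *
        conj (Gc K u h h' - Gam K u (h' - h))).re ≤ 2 * K * (K' : ℝ) ^ 3 := by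
    refine (Complex.re_le_norm _).trans ((norm_sum_le _ _).trans ?_)
    calc ∑ h ∈ Icc (1 : ℤ) K', ‖∑ h' ∈ Icc (1 : ℤ) K', Gc K u h h' *
          conj (Gc K u h h' - Gam K u (h' - h))‖
        ≤ ∑ _h ∈ Icc (1 : ℤ) K', ∑ _h' ∈ Icc (1 : ℤ) K', (K : ℝ) * (2 * K') := by
          refine sum_le_sum fun h hh => (norm_sum_le _ _).trans (sum_le_sum fun h' hh' => ?_)
          rw [norm_mul, RCLike.norm_conj]
          exact mul_le_mul (hG _ _) (F3 K K' u hu h h' hh hh') (norm_nonneg _) (Nat.cast_nonneg _)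
      _ = 2 * K * (K' : ℝ) ^ 3 := by
          simp only [sum_const, card_I, nsmul_eq_mul]
          ring
  have b1 : (∑ h ∈ Icc (1 : ℤ) K', ∑ h' ∈ Icc (1 : ℤ) K', Gc K u h h' *
      conj (Gam K u (h' - h))).re ≤ K * w := by
    have e2 : ((M : ℕ) : ℂ) * ∑ h ∈ Icc (1 : ℤ) K', ∑ h' ∈ Icc (1 : ℤ) K', Gc K u h h' *
        conj (Gam K u (h' - h)) =
        ((∑ j ∈ range M, Jw K u ((j : ℝ) / M) * Wt K K' u (-((j : ℝ) / M)) : ℝ) : ℂ) := by
      rw [← F4 K K' hK u, mul_sum]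
      refine sum_congr rfl fun h _ => ?_
      rw [mul_sum]
      refine sum_congr rfl fun h' _ => ?_
      rw [map_mul, Complex.conj_natCast]
      ring
    have e3 : (M : ℝ) * (∑ h ∈ Icc (1 : ℤ) K', ∑ h' ∈ Icc (1 : ℤ) K', Gc K u h h' *
        conj (Gam K u (h' - h))).re =
        ∑ j ∈ range M, Jw K u ((j : ℝ) / M) * Wt K K' u (-((j : ℝ) / M)) := by
      have := congrArg Complex.re e2
      rw [Complex.ofReal_re, ← Complex.ofReal_natCast, Complex.re_ofReal_mul] at this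
      exact this
    have hw0 : 0 ≤ w := le_trans (by unfold Wt; positivity) (hw 0)
    have e4 : ∑ j ∈ range M, Jw K u ((j : ℝ) / M) * Wt K K' u (-((j : ℝ) / M)) ≤
        (M : ℝ) * (K * w) := by
      calc _ ≤ ∑ j ∈ range M, Jw K u ((j : ℝ) / M) * w :=
            sum_le_sum fun j _ => mul_le_mul_of_nonneg_left (hw _) (by unfold Jw; positivity)
        _ = (∑ j ∈ range M, Jw K u ((j : ℝ) / M)) * w := by rw [sum_mul]
        _ ≤ ((M : ℝ) * K) * w := mul_le_mul_of_nonneg_right (sum_J K u hu) hw0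
        _ = _ := by ring
    rw [← e3] at e4
    exact le_of_mul_le_mul_left e4 hM0
  linarith

theorem xx : Pool.Agent.N781.A.S_U2 := by
  intro D s K K' Φ δ hΦ hD hs hK hK' hδ h1 h2 h3
  by_contra hcon
  push Not at hcon
  have hD0 : (0 : ℝ) < D := by exact_mod_cast hD
  have hK0 : (0 : ℝ) < K := by exact_mod_cast hK
  have hK0' : (0 : ℝ) < K' := by exact_mod_cast hK'
  have hs0 : (0 : ℝ) < s := by exact_mod_cast hs
  -- the function on the progression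
  set u : ℤ → ℤ → ℂ := fun d m => Φ (d + s * m) with hu
  have hu1 : ∀ d m, ‖u d m‖ ≤ 1 := fun d m => hΦ _
  set A : ℤ → ℝ := fun d => ∑ h ∈ Icc (1 : ℤ) K', ∑ h' ∈ Icc (1 : ℤ) K', ‖Gc K (u d) h h'‖ ^ 2
    with hA
  have hGX : GX (T1 D (s, K)) [(s, K')] Φ = (∑ d ∈ Icc (1 : ℤ) D, A d) / (K' ^ 2 * K ^ 2 * D) := by
    simp only [GX, T1, avr, av, Dl, hA]
    rw [sum_comm]
    have e1 : ∀ h ∈ Icc (1 : ℤ) K', ∑ d ∈ Icc (1 : ℤ) D, ∑ h' ∈ Icc (1 : ℤ) K',
        ‖Gc K (u d) h h'‖ ^ 2 = ∑ h' ∈ Icc (1 : ℤ) K', ∑ d ∈ Icc (1 : ℤ) D,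
        ‖Gc K (u d) h h'‖ ^ 2 := fun h _ => sum_comm
    rw [sum_congr rfl e1]
    rw [sum_div, sum_div]
    refine sum_congr rfl fun h _ => ?_
    rw [sum_div, sum_div, sum_div]
    refine sum_congr rfl fun h' _ => ?_
    rw [sum_div, sum_div, sum_div, sum_div]
    refine sum_congr rfl fun d _ => ?_
    have e2 : (∑ n ∈ Icc (1 : ℤ) K, Φ (d + s * n + s * h) * conj (Φ (d + s * n + s * h'))) =
        Gc K (u d) h h' := by
      unfold Gc
      refine sum_congr rfl fun k _ => ?_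
      simp only [hu]
      rw [show d + s * k + s * h = d + s * (k + h) by ring,
        show d + s * k + s * h' = d + s * (k + h') by ring]
    rw [e2, norm_div, div_pow, Complex.norm_natCast]
    field_simp
  rw [hGX, le_div_iff₀ (by positivity)] at h3
  -- δ ≤ 1
  have hAle : ∀ d, A d ≤ K' ^ 2 * K ^ 2 := by
    intro d
    calc A d ≤ ∑ _h ∈ Icc (1 : ℤ) K', ∑ _h' ∈ Icc (1 : ℤ) K', (K : ℝ) ^ 2 := by
          refine sum_le_sum fun h _ => sum_le_sum fun h' _ => ?_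
          refine pow_le_pow_left₀ (norm_nonneg _) ?_ 2
          unfold Gc
          refine (norm_sum_le _ _).trans ?_
          calc ∑ k ∈ Icc (1 : ℤ) K, ‖u d (k + h) * conj (u d (k + h'))‖ ≤
                ∑ _k ∈ Icc (1 : ℤ) K, (1 : ℝ) := by
                refine sum_le_sum fun k _ => ?_
                rw [norm_mul, RCLike.norm_conj]
                exact mul_le_one₀ (hu1 _ _) (norm_nonneg _) (hu1 _ _)
            _ = K := by simp
      _ = K' ^ 2 * K ^ 2 := by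
          simp only [sum_const, card_I, nsmul_eq_mul]
          ring
  have hδ1 : δ ≤ 1 := by
    have : ∑ d ∈ Icc (1 : ℤ) D, A d ≤ (K' ^ 2 * K ^ 2 * D : ℝ) := by
      calc ∑ d ∈ Icc (1 : ℤ) D, A d ≤ ∑ _d ∈ Icc (1 : ℤ) D, ((K' : ℝ) ^ 2 * K ^ 2) :=
            sum_le_sum fun d _ => hAle d
        _ = _ := by simp only [sum_const, card_I, nsmul_eq_mul]; ring
    have h4 := h3.trans this
    have h5 : (0 : ℝ) < K' ^ 2 * K ^ 2 * D := by positivity
    by_contra hc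
    push Not at hc
    nlinarith
  have hKK : K' ≤ K := by
    have : (K' : ℝ) ≤ K := by nlinarith
    exact_mod_cast this
  -- good points
  have hgood : ∀ d ∈ Icc (1 : ℤ) (D - s * K), A d ≤ K' ^ 2 * K ^ 2 * (δ / 8 + δ / 50) := by
    intro d hd
    rw [mem_Icc] at hd
    have hw : ∀ θ : ℝ, Wt K K' (u d) θ ≤ K' ^ 2 * K * (δ / 8) := by
      intro θ
      have h5 := (hcon θ).le
      unfold SS avr av at h5
      rw [div_le_div_iff₀ hD0 (by positivity)] at h5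
      have h6 : Wt K K' (u d) θ ≤ ∑ d' ∈ Icc (1 : ℤ) D,
          ‖∑ h ∈ Icc (1 : ℤ) K', Φ (d' + s * h) * eR (h * θ)‖ ^ 2 := by
        unfold Wt
        have e6 : ∀ k ∈ Icc (1 : ℤ) K, ‖∑ h ∈ Icc (1 : ℤ) K', u d (k + h) * eR (h * θ)‖ ^ 2 =
            (fun d' : ℤ => ‖∑ h ∈ Icc (1 : ℤ) K', Φ (d' + s * h) * eR (h * θ)‖ ^ 2)
              (d + s * k) := by
          intro k _
          simp only [hu]
          congr 2
          refine sum_congr rfl fun h _ => ?_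
          congr 2
          ring
        rw [sum_congr rfl e6, ← sum_image (f := fun d' : ℤ =>
          ‖∑ h ∈ Icc (1 : ℤ) K', Φ (d' + s * h) * eR (h * θ)‖ ^ 2) (g := fun k : ℤ => d + s * k)]
        · refine sum_le_sum_of_subset_of_nonneg ?_ fun _ _ _ => by positivity
          intro m hm
          obtain ⟨k, hk, rfl⟩ := mem_image.1 hm
          rw [mem_Icc] at hk ⊢
          have hsk : (s : ℤ) * k ≤ s * K := mul_le_mul_of_nonneg_left hk.2 (by positivity)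
          have hsk' : 0 ≤ (s : ℤ) * k := mul_nonneg (by positivity) (by omega)
          constructor <;> omega
        · intro k _ k' _ hkk
          have hs1 : (s : ℤ) ≠ 0 := by exact_mod_cast hs.ne'
          have : (s : ℤ) * k = s * k' := by
            have := hkk
            simp only at this
            omega
          exact mul_left_cancel₀ hs1 this
      have h7 : ∑ n ∈ Icc (1 : ℤ) D,
          ‖(∑ n_1 ∈ Icc (1 : ℤ) K', Φ (n + s * n_1) * eR (n_1 * θ)) / (K' : ℂ)‖ ^ 2 =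
          (∑ d' ∈ Icc (1 : ℤ) D,
          ‖∑ h ∈ Icc (1 : ℤ) K', Φ (d' + s * h) * eR (h * θ)‖ ^ 2) / K' ^ 2 := by
        rw [sum_div]
        refine sum_congr rfl fun n _ => ?_
        rw [norm_div, div_pow, Complex.norm_natCast]
      rw [h7, div_mul_eq_mul_div, div_le_iff₀ (by positivity)] at h5
      have h8 : (∑ d' ∈ Icc (1 : ℤ) D,
          ‖∑ h ∈ Icc (1 : ℤ) K', Φ (d' + s * h) * eR (h * θ)‖ ^ 2) ≤ K' ^ 2 * K * (δ / 8) := by
        have h9 : (∑ d' ∈ Icc (1 : ℤ) D,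
          ‖∑ h ∈ Icc (1 : ℤ) K', Φ (d' + s * h) * eR (h * θ)‖ ^ 2) * (8 * D) ≤
          (K' ^ 2 * K * (δ / 8)) * (8 * D) := by
          calc _ ≤ δ * K * D * K' ^ 2 := h5
            _ = _ := by ring
        exact le_of_mul_le_mul_right h9 (by positivity)
      exact h6.trans h8
    have := core K K' hKK (u d) (hu1 d) _ hw
    calc A d ≤ K * (K' ^ 2 * K * (δ / 8)) + 2 * K * (K' : ℝ) ^ 3 := this
      _ ≤ K' ^ 2 * K ^ 2 * (δ / 8 + δ / 50) := by
          have : (K' : ℝ) ^ 3 = K' ^ 2 * K' := by ring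
          have h9 : 2 * K * ((K' : ℝ) ^ 2 * K') ≤ 2 * K * ((K' : ℝ) ^ 2 * (δ / 100 * K)) := by
            gcongr
          rw [this]
          nlinarith
  -- all points
  have hsplit : ∑ d ∈ Icc (1 : ℤ) D, A d ≤ D * (K' ^ 2 * K ^ 2 * (δ / 8 + δ / 50)) +
      s * K * (K' ^ 2 * K ^ 2 : ℝ) := by
    have hb : ∀ d ∈ Icc (1 : ℤ) D, A d ≤ K' ^ 2 * K ^ 2 * (δ / 8 + δ / 50) +
        if d ∈ Icc ((D : ℤ) - s * K + 1) D then (K' ^ 2 * K ^ 2 : ℝ) else 0 := by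
      intro d hd
      rw [mem_Icc] at hd
      split_ifs with hc
      · have := hAle d
        have : (0 : ℝ) ≤ K' ^ 2 * K ^ 2 * (δ / 8 + δ / 50) := by positivity
        linarith
      · rw [mem_Icc] at hc
        have := hgood d (by rw [mem_Icc]; constructor <;> omega)
        linarith
    refine (sum_le_sum hb).trans ?_
    rw [sum_add_distrib, sum_const, card_I, nsmul_eq_mul, ← sum_filter, sum_const, nsmul_eq_mul]
    have hcard : (((Icc (1 : ℤ) D).filter fun d => d ∈ Icc ((D : ℤ) - s * K + 1) D).card : ℝ) ≤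
        s * K := by
      have : ((Icc (1 : ℤ) D).filter fun d => d ∈ Icc ((D : ℤ) - s * K + 1) D).card ≤ s * K := by
        refine (card_le_card (filter_subset_filter _ (subset_refl _) |>.trans ?_ :
          _ ⊆ Icc ((D : ℤ) - s * K + 1) D)).trans ?_
        · intro d hd
          exact (mem_filter.1 hd).2
        · rw [Int.card_Icc]
          have : ((D : ℤ) + 1 - (D - s * K + 1)).toNat = s * K := by
            have e : ((D : ℤ) + 1 - (D - s * K + 1)) = ((s * K : ℕ) : ℤ) := by push_cast; ring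
            rw [e, Int.toNat_natCast]
          omega
      exact_mod_cast this
    have h0 : (0 : ℝ) ≤ K' ^ 2 * K ^ 2 := by positivity
    have := mul_le_mul_of_nonneg_right hcard h0
    linarith
  have hfin : D * (K' ^ 2 * K ^ 2 * (δ / 8 + δ / 50)) +
      s * K * (K' ^ 2 * K ^ 2 : ℝ) < δ * (K' ^ 2 * K ^ 2 * D) := by
    have h0 : (0 : ℝ) < K' ^ 2 * K ^ 2 := by positivity
    have h5 : s * K * (K' ^ 2 * K ^ 2 : ℝ) ≤ δ / 4 * D * (K' ^ 2 * K ^ 2) :=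
      mul_le_mul_of_nonneg_right h1 h0.le
    have h6 : 0 < δ * (K' ^ 2 * K ^ 2 * D) := by positivity
    nlinarith
  linarith

end Pool.Agent.N803.A.U2
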